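import Pool.Agent.Helper79.TL.Core
import Pool.Agent.Helper79.TL.W2
import Pool.Agent.Helper31.BrauerLift

/-!
# TL-E3: the final combinatorial argument
-/

set_option autoImplicit false
set_option linter.unusedSectionVars false

open Module Matrix
open scoped MatrixGroups
open Pool.Agent.Helper31.Brauer

namespace Pool.Agent.Helper79.TL.E3

open Pool.Agent.Helper79.TL GPre

variable {G : Type} [Group G]

/-- class sums act by scalars on the natural module -/
lemma exists_lam [Fintype G] {D : GPre G} {F : Type} [Field F] [CharP F 3] (hD : D.Good)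
    {N : Representation F G (Fin 6 → F)} (hN : NatRep D N) :
    ∃ lam : G → F, ∀ g, classSum N g =
      lam g • (LinearMap.id : (Fin 6 → F) →ₗ[F] (Fin 6 → F)) := by
  classical
  have h : ∀ g : G, ∃ c : F, classSum N g =
      c • (LinearMap.id : (Fin 6 → F) →ₗ[F] (Fin 6 → F)) := by
    intro g
    apply nat_scalar hD hN
    intro h
    unfold classSum
    change (∑ x ∈ _, N x) * N h = N h * (∑ x ∈ _, N x)
    rw [Finset.sum_mul, Finset.mul_sum]
    refine Finset.sum_bij' (fun x _ => h⁻¹ * x * h) (fun x _ => h * x * h⁻¹) ?_ ?_ ?_ ?_ ?_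
    · intro x hx
      simp only [Finset.mem_filter, Finset.mem_univ, true_and] at hx ⊢
      exact hx.trans (isConj_iff.2 ⟨h⁻¹, by rw [inv_inv]⟩)
    · intro x hx
      simp only [Finset.mem_filter, Finset.mem_univ, true_and] at hx ⊢
      exact hx.trans (isConj_iff.2 ⟨h, rfl⟩)
    · intro x _; group
    · intro x _; group
    · intro x _
      change N x * N h = N h * N (h⁻¹ * x * h)
      rw [← map_mul, ← map_mul]
      congr 1
      group
  choose lam hlam using h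
  exact ⟨lam, hlam⟩

lemma reg_of_sq {g : G} (h : g * g = 1) : ¬ 3 ∣ orderOf g := by
  intro h3
  have h2 := h3.trans (orderOf_dvd_of_pow_eq_one (by rw [pow_two, h] : g ^ 2 = 1))
  revert h2; decide

lemma reg_r {D : GPre G} (hD : D.Good) (a : Fin 16) : ¬ 3 ∣ orderOf (D.r a) :=
  reg_of_sq (hD.r_sq a)

lemma reg_zr {D : GPre G} (hD : D.Good) (a : Fin 16) : ¬ 3 ∣ orderOf (D.z * D.r a) := by
  apply reg_of_sq
  calc D.z * D.r a * (D.z * D.r a) = D.z * (D.r a * D.z) * D.r a := by group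
    _ = D.z * (D.z * D.r a) * D.r a := by rw [hD.z_comm (D.r a)]
    _ = (D.z * D.z) * (D.r a * D.r a) := by group
    _ = 1 := by rw [hD.z_sq, hD.r_sq, one_mul]

/-- TL-E3 -/
theorem main [Fintype G] {D : GPre G} {F : Type} [Field F] [CharP F 3] (red : AlgInt →+* F)
    (hred : Function.Surjective red) (hD : D.Good)
    (N : Representation F G (Fin 6 → F)) (hN : NatRep D N) :
    ∃ lam : G → F, IsBlock lam ∧
      ∀ d : ↥(IrrB red lam) → ↥(IBrB (G := G) 3 red lam) →₀ ℕ,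
        IsDecompositionMatrix 3 red lam d → ¬ Unitriangular d := by
  obtain ⟨lam, hlam⟩ := exists_lam hD hN
  have hirr := nat_irreducible hD hN
  refine ⟨lam, ⟨6, N, hirr, hlam⟩, ?_⟩
  have hlam0 : Lam D lam = 0 := nat_Lam hD hN lam hlam
  rintro d hd ⟨n, χ, φ, -, h1, h2⟩
  -- modular side
  have hmod : ∀ ψ : ↥(IBrB (G := G) 3 red lam), ∃ v : ℕ, v ≤ 2 ∧
      ∑ a, (ψ.1 ⟨D.r a, reg_r hD a⟩ - ψ.1 ⟨D.z * D.r a, reg_zr hD a⟩) = 32 * (v : ℂ) := by
    rintro ⟨ψ, k, ρ, hρ, haff, hcl⟩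
    refine ⟨finrank F ↥(D.Vl ρ), dim_F red hred hD lam hlam0 ρ hρ hcl, ?_⟩
    rw [← brauer_Vl red hD ρ]
    refine Finset.sum_congr rfl fun a _ => ?_
    change ψ ⟨D.r a, reg_r hD a⟩ - ψ ⟨D.z * D.r a, reg_zr hD a⟩ = _
    rw [haff, haff]
  choose v hv2 hv using hmod
  -- ordinary side
  have hord : ∀ θ : ↥(IrrB (G := G) red lam), ∃ u : ℕ, (u = 0 ∨ 3 ≤ u) ∧
      ∑ a, (θ.1 (D.r a) - θ.1 (D.z * D.r a)) = 32 * (u : ℂ) := by
    rintro ⟨θ, hθ⟩
    obtain ⟨k, ρ, hρ, hchar⟩ := hθ.1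
    have hB : ρ.character ∈ IrrB red lam := by rw [hchar]; exact hθ
    refine ⟨finrank ℂ ↥(D.Vl ρ), dim_C red hD lam hlam0 ρ hρ hB, ?_⟩
    rw [← char_Vl hD ρ, hchar]
  choose u hu3 hu using hord
  -- the natural module
  let φN : ↥(IBrB (G := G) 3 red lam) :=
    ⟨fun g => brauerValue 3 red N g.1, 6, N, hirr, fun g => rfl, hlam⟩
  have hφN : v φN = 1 := by
    have h3 := hv φN
    have h4 : ∑ a, (φN.1 ⟨D.r a, reg_r hD a⟩ - φN.1 ⟨D.z * D.r a, reg_zr hD a⟩) = 32 * (1 : ℂ) := by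
      have h5 := brauer_Vl red hD N
      rw [nat_finrank hD hN, Nat.cast_one] at h5
      exact h5
    rw [h4] at h3
    have h6 : (v φN : ℂ) = 1 := (mul_left_cancel₀ (by norm_num) h3).symm
    exact_mod_cast h6
  -- the decomposition matrix
  have hsum : ∀ θ, u θ = ∑ j, d θ (φ j) * v (φ j) := by
    classical
    let _ : Fintype ↥(IBrB (G := G) 3 red lam) := Fintype.ofEquiv (Fin n) φ
    intro θ
    have h3 : ∀ g : Reg 3 G, θ.1 g.1 = ∑ j, (d θ (φ j) : ℂ) * (φ j).1 g := by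
      intro g
      rw [hd θ g, Finsupp.sum_fintype _ _ (by intro i; simp)]
      exact (φ.sum_comp (fun ψ => (d θ ψ : ℂ) * ψ.1 g)).symm
    have h4 : (32 : ℂ) * (u θ : ℂ) = 32 * ((∑ j, d θ (φ j) * v (φ j) : ℕ) : ℂ) := by
      rw [← hu θ]
      have h5 : ∀ a, θ.1 (D.r a) - θ.1 (D.z * D.r a) = ∑ j, (d θ (φ j) : ℂ) *
          ((φ j).1 ⟨D.r a, reg_r hD a⟩ - (φ j).1 ⟨D.z * D.r a, reg_zr hD a⟩) := by
        intro a
        rw [h3 ⟨D.r a, reg_r hD a⟩, h3 ⟨D.z * D.r a, reg_zr hD a⟩, ← Finset.sum_sub_distrib]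
        exact Finset.sum_congr rfl fun j _ => by ring
      rw [Finset.sum_congr rfl fun a _ => h5 a, Finset.sum_comm]
      push_cast
      rw [Finset.mul_sum]
      refine Finset.sum_congr rfl fun j _ => ?_
      rw [← Finset.mul_sum, hv]
      ring
    exact_mod_cast mul_left_cancel₀ (by norm_num) h4
  -- the first index at which the dimension is non-zero
  obtain ⟨i, hi, hmin⟩ : ∃ i : Fin n, v (φ i) ≠ 0 ∧ ∀ j, j < i → v (φ j) = 0 := by
    classical
    have hne : (Finset.univ.filter fun i : Fin n => v (φ i) ≠ 0).Nonempty := by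
      refine ⟨φ.symm φN, ?_⟩
      rw [Finset.mem_filter, Equiv.apply_symm_apply, hφN]
      exact ⟨Finset.mem_univ _, one_ne_zero⟩
    refine ⟨(Finset.univ.filter fun i : Fin n => v (φ i) ≠ 0).min' hne,
      (Finset.mem_filter.1 (Finset.min'_mem _ hne)).2, fun j hj => ?_⟩
    by_contra h0
    exact absurd (Finset.min'_le _ j (Finset.mem_filter.2 ⟨Finset.mem_univ _, h0⟩)) (not_le.2 hj)
  have hui : u (χ i) = v (φ i) := by
    rw [hsum, Finset.sum_eq_single i]
    · rw [h1, one_mul]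
    · intro j _ hj
      rcases lt_or_gt_of_ne hj with h | h
      · rw [hmin j h, mul_zero]
      · rw [h2 i j h, zero_mul]
    · intro h; exact absurd (Finset.mem_univ _) h
  have h3 := hv2 (φ i)
  have h4 := hu3 (χ i)
  omega

end Pool.Agent.Helper79.TL.E3
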